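import Pool.Agent.Helper54.DC.ClaF

/-!
# Counting the solutions of `A X + B Y = C Z` in products of small spread: determinant method

For positive integers `A`, `B`, `C`, real `M` and a set `I` of real numbers let `Sol A B C M I` be the
set of the triples `(X, Y, Z)` with `A X + B Y = C Z` for which `X`, `Y`, `Z` have representations as
products with `s² / b ≤ M` and `∑ (s + 1) / n` in `I` (there is no condition on `gcd (X, Y)`). We prove
that for every `ε > 0` the number of its elements with `Z ≤ N` is `O (N ^ (11 / 30 + ε))` for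
`I = (-∞, 1)`, and `O (N ^ (θ (F) + ε))`, `θ (F) = min (11 / 30) (max (2 F / 5) ((3 F + F²) / 9))`, for
`I = (-∞, F]`, `F < 1`.

The proof has three parts.

* *The determinant method* (Bombieri-Pila, `p`-adically as in Heath-Brown): for fixed `a`, `b` and `α`,
  `β ≠ 0` the equation `α x ^ a + β y ^ b = m` has `O (N ^ (1 / (a b) + ε))` solutions in natural numbers
  with `x ^ a`, `y ^ b ≤ N`, uniformly in `m ≠ 0` (`Pool.Agent.Helper54.DC.bp`): all the solutions in a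
  residue class mod `p ≫ N ^ (1 / (a b) + ε)` are zeros of an auxiliary polynomial.
* *The number of products*: there are `O (N ^ (1 / n + ε))` products `W ≤ N` of degree `n` and base
  `b ≥ 2` with `s + 1 < n`, uniformly in `n`, and `O (N ^ ε)` products of base 1: all primes of `W` divide
  `∏ (b + j)`, `j ≤ s`, and Rankin's trick applies.
* *The degrees*: if the two largest degrees are such that `1 / n + 1 / n' ≤ θ` the two corresponding
  products determine the solution. Otherwise two of the three products are perfect powers `x ^ a`, `y ^ b`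
  with bounded `a`, `b`, and the determinant method applies after the third product `W`, of degree `n`,
  is fixed; `1 / n + 1 / (a b) ≤ θ` in all the cases.
-/

set_option autoImplicit false

namespace Pool.Agent.Results.MP_4ffbf9_nt.DeterminantCount

open Pool.Agent.Helper54.DC

/-- The solutions `(X, Y, Z)` of `A X + B Y = C Z` in products of small spread with
`∑ (s + 1) / n` in `I`: as in the problem's frozen statement, `b` is the least factor and `b + s` the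
greatest one in a representation. There is no condition on `gcd (X, Y)`. -/
def Sol (A B C : ℕ) (M : ℝ) (I : Set ℝ) : Set (ℕ × ℕ × ℕ) :=
  {t : ℕ × ℕ × ℕ |
    A * t.1 + B * t.2.1 = C * t.2.2 ∧
    ∃ (nX nY nZ bX bY bZ sX sY sZ : ℕ)
      (x : Fin nX → ℕ) (y : Fin nY → ℕ) (z : Fin nZ → ℕ),
      0 < bX ∧ 0 < bY ∧ 0 < bZ ∧
      (∀ i, bX ≤ x i ∧ x i ≤ bX + sX) ∧ (∃ i, x i = bX) ∧ (∃ i, x i = bX + sX) ∧
      (∀ i, bY ≤ y i ∧ y i ≤ bY + sY) ∧ (∃ i, y i = bY) ∧ (∃ i, y i = bY + sY) ∧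
      (∀ i, bZ ≤ z i ∧ z i ≤ bZ + sZ) ∧ (∃ i, z i = bZ) ∧ (∃ i, z i = bZ + sZ) ∧
      (∏ i, x i) = t.1 ∧ (∏ i, y i) = t.2.1 ∧ (∏ i, z i) = t.2.2 ∧
      ((sX : ℝ) ^ 2 / (bX : ℝ) ≤ M) ∧
      ((sY : ℝ) ^ 2 / (bY : ℝ) ≤ M) ∧
      ((sZ : ℝ) ^ 2 / (bZ : ℝ) ≤ M) ∧
      ((1 + (sX : ℝ)) / (nX : ℝ) + (1 + (sY : ℝ)) / (nY : ℝ)
        + (1 + (sZ : ℝ)) / (nZ : ℝ) ∈ I)}

theorem transfer (A B C : ℕ) (M θ : ℝ) (I : Set ℝ) (hA : 0 < A) (hB : 0 < B) (hC : 0 < C)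
    (h : ∃ K : ℝ, 0 ≤ K ∧ ∀ N : ℝ, 1 ≤ N → ∀ S : Finset (Fin 3 → ℕ),
      (∀ t ∈ S, ∑ x, ![(A : ℤ), (B : ℤ), -(C : ℤ)] x * (t x : ℤ) = 0 ∧ (∀ x, (t x : ℝ) ≤ N) ∧
        ∃ n b s : Fin 3 → ℕ, (∀ x, Rep M (t x) (n x) (b x) (s x)) ∧
          ∑ x, (1 + (s x : ℝ)) / (n x : ℝ) ∈ I) →
      (S.card : ℝ) ≤ K * N ^ θ) :
    ∃ K : ℝ, ∀ N : ℕ, 1 ≤ N →
      (Sol A B C M I ∩ {t : ℕ × ℕ × ℕ | t.2.2 ≤ N}).Finite ∧
      ((Sol A B C M I ∩ {t : ℕ × ℕ × ℕ | t.2.2 ≤ N}).ncard : ℝ) ≤ K * (N : ℝ) ^ θ := by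
  classical
  obtain ⟨K, hK0, hK⟩ := h
  refine ⟨K * (C : ℝ) ^ θ, ?_⟩
  intro N hN
  have hbound : ∀ t ∈ Sol A B C M I ∩ {t : ℕ × ℕ × ℕ | t.2.2 ≤ N},
      t.1 ≤ C * N ∧ t.2.1 ≤ C * N ∧ t.2.2 ≤ C * N := by
    rintro t ⟨⟨h1, -⟩, h2⟩
    have h2' : t.2.2 ≤ N := h2
    have h3 : C * t.2.2 ≤ C * N := Nat.mul_le_mul_left _ h2'
    have h4 : t.1 ≤ A * t.1 := Nat.le_mul_of_pos_left _ hA
    have h5 : t.2.1 ≤ B * t.2.1 := Nat.le_mul_of_pos_left _ hB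
    have h6 : N ≤ C * N := Nat.le_mul_of_pos_left _ hC
    omega
  have hfin : (Sol A B C M I ∩ {t : ℕ × ℕ × ℕ | t.2.2 ≤ N}).Finite := by
    apply Set.Finite.subset (Finset.finite_toSet
      (Finset.range (C * N + 1) ×ˢ (Finset.range (C * N + 1) ×ˢ Finset.range (C * N + 1))))
    intro t ht
    have h1 := hbound t ht
    rw [Finset.mem_coe, Finset.mem_product, Finset.mem_product, Finset.mem_range, Finset.mem_range,
      Finset.mem_range]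
    omega
  refine ⟨hfin, ?_⟩
  have hNC : (1 : ℝ) ≤ (C : ℝ) * N := by
    have h1 : 1 ≤ C * N := Nat.mul_pos hC hN
    exact_mod_cast h1
  let f : ℕ × ℕ × ℕ → Fin 3 → ℕ := fun t => ![t.1, t.2.1, t.2.2]
  have hf : Function.Injective f := by
    rintro ⟨x, y, z⟩ ⟨x', y', z'⟩ h
    have h0 := congrFun h 0
    have h1 := congrFun h 1
    have h2 := congrFun h 2
    simp only [f] at h0 h1 h2
    simp at h0 h1 h2
    rw [h0, h1, h2]
  rw [Set.ncard_eq_toFinset_card _ hfin]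
  have hmain := hK ((C : ℝ) * N) hNC (hfin.toFinset.image f) (by
    intro w hw
    rw [Finset.mem_image] at hw
    obtain ⟨t, ht, rfl⟩ := hw
    rw [Set.Finite.mem_toFinset] at ht
    obtain ⟨b1, b2, b3⟩ := hbound t ht
    obtain ⟨⟨heq, nX, nY, nZ, bX, bY, bZ, sX, sY, sZ, x, y, z, hbX, hbY, hbZ, hx1, hx2, hx3,
      hy1, hy2, hy3, hz1, hz2, hz3, hX, hY, hZ, hMX, hMY, hMZ, hsum⟩, -⟩ := ht
    refine ⟨?_, ?_, ![nX, nY, nZ], ![bX, bY, bZ], ![sX, sY, sZ], ?_, ?_⟩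
    · rw [Fin.sum_univ_three]
      change (A : ℤ) * (t.1 : ℤ) + (B : ℤ) * (t.2.1 : ℤ) + -(C : ℤ) * (t.2.2 : ℤ) = 0
      have h1 : (A : ℤ) * (t.1 : ℤ) + (B : ℤ) * (t.2.1 : ℤ) = (C : ℤ) * (t.2.2 : ℤ) := by
        exact_mod_cast heq
      rw [h1]
      ring
    · intro i
      fin_cases i
      · change (t.1 : ℝ) ≤ C * N
        exact_mod_cast b1
      · change (t.2.1 : ℝ) ≤ C * N
        exact_mod_cast b2
      · change (t.2.2 : ℝ) ≤ C * N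
        exact_mod_cast b3
    · intro i
      fin_cases i
      · exact ⟨x, hbX, hx1, hx2, hx3, hX, hMX⟩
      · exact ⟨y, hbY, hy1, hy2, hy3, hY, hMY⟩
      · exact ⟨z, hbZ, hz1, hz2, hz3, hZ, hMZ⟩
    · rw [Fin.sum_univ_three]
      exact hsum)
  rw [Finset.card_image_of_injective _ hf] at hmain
  refine hmain.trans (le_of_eq ?_)
  rw [Real.mul_rpow (by positivity) (by positivity)]
  ring

/-- **The number of solutions with `Z ≤ N` is `O (N ^ (11 / 30 + ε))`, and `O (N ^ (θ (F) + ε))` if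
`∑ (s + 1) / n ≤ F < 1`, where `θ (F) = min (11 / 30) (max (2 F / 5) ((3 F + F²) / 9))`.** -/
theorem result (A B C : ℕ) (M ε : ℝ) (hA : 0 < A) (hB : 0 < B) (hC : 0 < C) (hε : 0 < ε) :
    (∃ K : ℝ, ∀ N : ℕ, 1 ≤ N →
      (Sol A B C M (Set.Iio 1) ∩ {t : ℕ × ℕ × ℕ | t.2.2 ≤ N}).Finite ∧
      ((Sol A B C M (Set.Iio 1) ∩ {t : ℕ × ℕ × ℕ | t.2.2 ≤ N}).ncard : ℝ) ≤
        K * (N : ℝ) ^ ((11 : ℝ) / 30 + ε)) ∧
    ∀ F : ℝ, F < 1 → ∃ K : ℝ, ∀ N : ℕ, 1 ≤ N →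
      (Sol A B C M (Set.Iic F) ∩ {t : ℕ × ℕ × ℕ | t.2.2 ≤ N}).Finite ∧
      ((Sol A B C M (Set.Iic F) ∩ {t : ℕ × ℕ × ℕ | t.2.2 ≤ N}).ncard : ℝ) ≤
        K * (N : ℝ) ^ (min (11 / 30) (max (2 * F / 5) ((3 * F + F ^ 2) / 9)) + ε) := by
  have ha : ∀ i, (![(A : ℤ), (B : ℤ), -(C : ℤ)] : Fin 3 → ℤ) i ≠ 0 := by
    intro i
    fin_cases i <;> simp <;> omega
  refine ⟨transfer A B C M _ _ hA hB hC (main _ ha M ε hε), ?_⟩
  intro F hF
  apply transfer A B C M _ _ hA hB hC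
  rcases le_total ((11 : ℝ) / 30) (max (2 * F / 5) ((3 * F + F ^ 2) / 9)) with hle | hle
  · rw [min_eq_left hle]
    obtain ⟨K, hK0, hK⟩ := main _ ha M ε hε
    refine ⟨K, hK0, fun N hN S hS => hK N hN S fun t ht => ?_⟩
    obtain ⟨h1, h2, n, b, s, h3, h4⟩ := hS t ht
    exact ⟨h1, h2, n, b, s, h3, lt_of_le_of_lt h4 hF⟩
  · rw [min_eq_right hle]
    exact mainF _ ha M ε F hε hF _ (le_max_left _ _) (le_max_right _ _)

end Pool.Agent.Results.MP_4ffbf9_nt.DeterminantCount
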