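import Pool.Agent.Helper42.ZV.Count
import Pool.Graph.R_pool_sql_team_seeded_63374d34.N375.AV.D
import Pool.Graph.R_pool_sql_team_seeded_63374d34.N733.TG.K

/-!
# `A X + B Y = C Z` in products of small spread: `Z` keeps away from the values of arithmetic functions

All solutions of Q1, in all degrees `1, 2, 3, ...` and with all spreads, with `∑ (s + 1) / n < 1` (or
`≤ F`) and without any condition on `gcd (X, Y)`. Let `θ = 11 / 30` (or, for `F < 1`,
`θ = min (11 / 30) (max (2 F / 5) ((3 F + F ^ 2) / 9))`), let `G` be a function with steps bounded below by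
a positive constant and growth at most `v ^ d`, for instance `α v ^ d`, and let `d θ + κ < 1`, `κ ≥ 0`.

1. Let `F` be a composition of `k` functions dominated by the largest prime factor: for example
   additive functions with `f (q ^ j) ≤ c q ^ j` which are injective at the large primes, such as the
   sum of the prime factors, or the largest prime factor, or Kempner's function. For all `m ≤ N` but
   `K N exp (- c (log N) ^ (1 / (k + 1)))` there is no solution with `|Z - G (F m)| ≤ F(m) ^ κ`.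
2. Let `f` be a multiplicative function like Euler's function or the sum of the divisors. For all
   `m ≤ N` but `N / (log N) ^ U`, `N` large, there is no solution with `|Z - G (f m)| ≤ f(m) ^ κ`.

The number of the `Z ≤ N` is bounded by the determinant method (`DeterminantCount`, helper54); preimages
of thin sets under the functions in 1 and 2 are thin (library, `N375/AV` and `N733/TG`).
-/

set_option autoImplicit false

open Finset

namespace Pool.Agent.Results.MP_4ffbf9_nt.SolutionsAtArithmeticValues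

open DeterminantCount (Sol)
open Pool.Agent.N375.AV (PD comp)
open Pool.Agent.N733.TG (LM Expanding)

/-- The two statements, for solutions with `∑ (s + 1) / n` in `I` and with the exponent `θ`. -/
def AtArithmeticValues (θ : ℝ) (I : Set ℝ) : Prop :=
  ∀ A B C : ℕ, 0 < A → 0 < B → 0 < C → ∀ M d κ : ℝ, 0 ≤ κ → d * θ + κ < 1 →
    ∀ G : ℕ → ℝ, Expanding G d →
    (∀ fs : List (ℕ → ℕ), (∀ f ∈ fs, PD f) → ∃ c K : ℝ, 0 < c ∧ ∀ N : ℕ, 1 ≤ N →
      ({m : ℕ | 1 ≤ m ∧ m ≤ N ∧ ∃ X Y Z : ℕ, (X, Y, Z) ∈ Sol A B C M I ∧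
        |(Z : ℝ) - G (comp fs m)| ≤ (comp fs m : ℝ) ^ κ}.ncard : ℝ) ≤
        K * N * Real.exp (-(c * Real.log N ^ ((1 : ℝ) / (fs.length + 1))))) ∧
    (∀ f : ℕ → ℕ, LM f → ∀ U : ℕ, ∃ N₀ : ℕ, ∀ N : ℕ, N₀ ≤ N →
      ({m : ℕ | 1 ≤ m ∧ m ≤ N ∧ ∃ X Y Z : ℕ, (X, Y, Z) ∈ Sol A B C M I ∧
        |(Z : ℝ) - G (f m)| ≤ (f m : ℝ) ^ κ}.ncard : ℝ) ≤ N / Real.log N ^ U)

theorem of_count (I : Set ℝ) (θ : ℝ) (h0 : 0 ≤ θ)
    (h : ∀ (A B C : ℕ) (M : ℝ), 0 < A → 0 < B → 0 < C → ∀ ε : ℝ, 0 < ε → ∃ K : ℝ, ∀ N : ℕ, 1 ≤ N →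
      (Sol A B C M I ∩ {t : ℕ × ℕ × ℕ | t.2.2 ≤ N}).Finite ∧
      ((Sol A B C M I ∩ {t : ℕ × ℕ × ℕ | t.2.2 ≤ N}).ncard : ℝ) ≤ K * (N : ℝ) ^ (θ + ε)) :
    AtArithmeticValues θ I := by
  classical
  intro A B C hA hB hC M d κ hκ hd G hG
  have hP := Pool.Agent.Helper42.ZV.count_of (h A B C M hA hB hC)
  have hsub : ∀ (g : ℕ → ℕ) (N : ℕ), ({m : ℕ | 1 ≤ m ∧ m ≤ N ∧ ∃ X Y Z : ℕ, (X, Y, Z) ∈ Sol A B C M I ∧
      |(Z : ℝ) - G (g m)| ≤ (g m : ℝ) ^ κ}.ncard : ℝ) ≤ ({m : ℕ | 1 ≤ m ∧ m ≤ N ∧ ∃ n : ℕ,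
      (n = 0 ∨ n ∈ {Z : ℕ | ∃ X Y, (X, Y, Z) ∈ Sol A B C M I}) ∧
        |(n : ℝ) - G (g m)| ≤ (g m : ℝ) ^ κ}.ncard : ℝ) := by
    intro g N
    refine Nat.cast_le.2 (Set.ncard_le_ncard ?_ ?_)
    · rintro m ⟨h1, h2, X, Y, Z, h3, h4⟩
      exact ⟨h1, h2, Z, Or.inr ⟨X, Y, h3⟩, h4⟩
    · exact (Set.finite_Icc 1 N).subset fun m hm => ⟨hm.1, hm.2.1⟩
  constructor
  · intro fs hfs
    obtain ⟨c, K, hc, hK⟩ := Pool.Agent.N375.AV.win_nat
      {Z : ℕ | ∃ X Y, (X, Y, Z) ∈ Sol A B C M I} fs hfs hG (s := θ) (κ := κ) h0 hκ hd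
      (fun ε hε => by
        obtain ⟨K, hK⟩ := hP ε hε
        refine ⟨K, fun X hX => le_trans (le_of_eq ?_) (hK X hX)⟩
        congr!)
    exact ⟨c, K, hc, fun N hN => (hsub (comp fs) N).trans (hK N hN)⟩
  · intro f hf U
    obtain ⟨N₀, hN₀⟩ := Pool.Agent.N733.TG.keep_win_nat
      {Z : ℕ | ∃ X Y, (X, Y, Z) ∈ Sol A B C M I} hf hG (s := θ) (κ := κ) h0 hκ hd
      (fun ε hε => by
        obtain ⟨K, hK⟩ := hP ε hε
        refine ⟨K, fun X hX => le_trans (le_of_eq ?_) (hK X hX)⟩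
        congr!) U
    exact ⟨N₀, fun N hN => (hsub f N).trans (hN₀ N hN)⟩

/-- **The sum terms of the solutions keep away from the values of arithmetic functions.** With exponent
`11 / 30` for all `F < 1` together (`∑ (s + 1) / n < 1`) and with the exponent
`min (11 / 30) (max (2 F / 5) ((3 F + F ^ 2) / 9))` for `∑ (s + 1) / n ≤ F`; with examples of functions
`f` as in 1 and 2 and of functions `G`. -/
theorem result :
    AtArithmeticValues (11 / 30) (Set.Iio 1) ∧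
    (∀ F : ℝ, 0 ≤ F → F < 1 →
      AtArithmeticValues (min (11 / 30) (max (2 * F / 5) ((3 * F + F ^ 2) / 9))) (Set.Iic F)) ∧
    ((∀ f : ℕ → ℕ, (∀ a b : ℕ, Nat.Coprime a b → f (a * b) = f a + f b) →
      (∃ C : ℕ, ∀ q j : ℕ, q.Prime → 1 ≤ j → f (q ^ j) ≤ C * q ^ j) →
      (∃ P : ℕ, ∀ p q : ℕ, p.Prime → q.Prime → P ≤ p → P ≤ q → f p = f q → p = q) → PD f) ∧
      PD (fun n => n.primeFactorsList.sum) ∧ PD (fun n => n.primeFactors.sup id) ∧
      PD (fun n => sInf {k : ℕ | n ∣ k.factorial})) ∧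
    (LM Nat.totient ∧ LM (fun m => ∑ d ∈ m.divisors, d)) ∧
    ∀ α d : ℝ, 0 < α → 1 ≤ d → Expanding (fun v => α * (v : ℝ) ^ d) d := by
  refine ⟨?_, ?_, ⟨fun f h1 h2 h3 => Pool.Agent.N375.AV.pd_additive h1 h2 h3,
    Pool.Agent.N375.AV.pd_sopfr, Pool.Agent.N375.AV.pd_largest, Pool.Agent.N375.AV.pd_kempner⟩,
    ⟨Pool.Agent.N733.TG.lm_totient, Pool.Agent.N733.TG.lm_sigma⟩,
    fun α d hα hd => Pool.Agent.N733.TG.expanding_pow hα hd⟩
  · refine of_count _ _ (by norm_num) ?_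
    intro A B C M hA hB hC ε hε
    exact (DeterminantCount.result A B C M ε hA hB hC hε).1
  · intro F hF0 hF1
    refine of_count _ _ ?_ ?_
    · exact le_min (by norm_num) (le_max_of_le_left (by positivity))
    · intro A B C M hA hB hC ε hε
      exact (DeterminantCount.result A B C M ε hA hB hC hε).2 F hF1

end Pool.Agent.Results.MP_4ffbf9_nt.SolutionsAtArithmeticValues
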