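import Pool.Agent.Helper42.ZV.Count
import Pool.Graph.R_pool_sql_team_seeded_63374d34.N251.LF.Win

/-!
# `A X + B Y = C Z` in products of small spread: `Z` keeps away from generic polynomials and linear forms

All solutions of Q1, in all degrees `1, 2, 3, ...` and with all spreads, with `∑ (s + 1) / n < 1` (or
`≤ F`) and without any condition on `gcd (X, Y)`. Let `θ = 11 / 30` (or, for `F < 1`,
`θ = min (11 / 30) (max (2 F / 5) ((3 F + F ^ 2) / 9))`).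

1. Let `v_i`, `i` in any set, be vectors in `ℝ ^ k`, `O(X ^ (τ + ε))` of them of norm at most `X` for every
   `ε > 0`, and let `η < 1`. For all `α` in `ℝ ^ k` outside a set of Hausdorff dimension at most
   `k - 1 + (θ + τ) / (1 - η)`, for all positive `A`, `B`, `C` and all `M`, `c`: for all but finitely many
   `i` there is no solution with `|Z - α · v_i| ≤ c ‖v_i‖ ^ η`.
2. So, for almost all real polynomials `f` of degree `d ≥ 2` and all `κ < (1 - θ) d - 1`, only finitely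
   many `n` have a solution with `|Z - f(n)| ≤ c n ^ κ` (for `d = 2` and all `F < 1`: `κ < 4 / 15`).

The number of the `Z ≤ N` is bounded by the determinant method (`DeterminantCount`, helper54); the tool
for linear forms is from the library (`N251/LF`). The case `k = 1` is in `SolutionsNearRandomReals`.
-/

set_option autoImplicit false

open Finset MeasureTheory Filter

namespace Pool.Agent.Results.MP_4ffbf9_nt.SolutionsNearGenericForms

open DeterminantCount (Sol)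

/-- for every `ε > 0` the family `v` has at most `C X ^ (τ + ε)` members of norm at most `X` -/
def Fam {k : ℕ} {ι : Type} (v : ι → Fin k → ℝ) (τ : ℝ) : Prop :=
  ∀ ε : ℝ, 0 < ε → ∃ C : ℝ, ∀ X : ℝ, 1 ≤ X →
    {i | ‖v i‖ ≤ X}.Finite ∧ (({i | ‖v i‖ ≤ X}.ncard : ℕ) : ℝ) ≤ C * X ^ (τ + ε)

/-- The two statements, for solutions with `∑ (s + 1) / n` in `I` and with the exponent `θ`. -/
def NearForms (θ : ℝ) (I : Set ℝ) : Prop :=
  (∀ (k : ℕ) (ι : Type) (v : ι → Fin k → ℝ) (τ η : ℝ), Fam v τ → 0 ≤ τ → η < 1 →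
    ∃ E : Set (Fin k → ℝ), dimH E ≤ ENNReal.ofReal ((k : ℝ) - 1 + (θ + τ) / (1 - η)) ∧
      ∀ α, α ∉ E → ∀ A B C : ℕ, 0 < A → 0 < B → 0 < C → ∀ M c : ℝ,
        {i | ∃ X Y Z : ℕ, (X, Y, Z) ∈ Sol A B C M I ∧
          |(Z : ℝ) - ∑ j, α j * v i j| ≤ c * ‖v i‖ ^ η}.Finite) ∧
  ∀ d : ℕ, 2 ≤ d → ∀ᵐ α : Fin (d + 1) → ℝ, ∀ A B C : ℕ, 0 < A → 0 < B → 0 < C →
    ∀ M c κ : ℝ, κ < (1 - θ) * d - 1 →
      {n : ℕ | ∃ X Y Z : ℕ, (X, Y, Z) ∈ Sol A B C M I ∧
        |(Z : ℝ) - ∑ j, α j * (n : ℝ) ^ (j : ℕ)| ≤ c * (n : ℝ) ^ κ}.Finite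

theorem sol_mono {A B C : ℕ} {M M' : ℝ} (h : M ≤ M') {I : Set ℝ} {t : ℕ × ℕ × ℕ}
    (ht : t ∈ Sol A B C M I) : t ∈ Sol A B C M' I := by
  obtain ⟨h0, nX, nY, nZ, bX, bY, bZ, sX, sY, sZ, x, y, z, hbX, hbY, hbZ, hx1, hx2, hx3,
      hy1, hy2, hy3, hz1, hz2, hz3, hX, hY, hZ, hMX, hMY, hMZ, hsum⟩ := ht
  exact ⟨h0, nX, nY, nZ, bX, bY, bZ, sX, sY, sZ, x, y, z, hbX, hbY, hbZ, hx1, hx2, hx3,
      hy1, hy2, hy3, hz1, hz2, hz3, hX, hY, hZ, hMX.trans h, hMY.trans h, hMZ.trans h, hsum⟩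

theorem norm_powers {d n : ℕ} (hn : 1 ≤ n) :
    ‖(fun j : Fin (d + 1) => (n : ℝ) ^ (j : ℕ))‖ = (n : ℝ) ^ d := by
  have hn1 : (1 : ℝ) ≤ n := by exact_mod_cast hn
  apply le_antisymm
  · rw [pi_norm_le_iff_of_nonneg (by positivity)]
    intro j
    rw [Real.norm_eq_abs, abs_of_nonneg (by positivity)]
    exact pow_le_pow_right₀ hn1 (by omega)
  · have h := norm_le_pi_norm (fun j : Fin (d + 1) => (n : ℝ) ^ (j : ℕ)) (Fin.last d)
    simp only [Fin.val_last] at h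
    rwa [Real.norm_eq_abs, abs_of_nonneg (by positivity)] at h

theorem of_count (I : Set ℝ) (θ : ℝ) (h0 : 0 ≤ θ)
    (h : ∀ (A B C : ℕ) (M : ℝ), 0 < A → 0 < B → 0 < C → ∀ ε : ℝ, 0 < ε → ∃ K : ℝ, ∀ N : ℕ, 1 ≤ N →
      (Sol A B C M I ∩ {t : ℕ × ℕ × ℕ | t.2.2 ≤ N}).Finite ∧
      ((Sol A B C M I ∩ {t : ℕ × ℕ × ℕ | t.2.2 ≤ N}).ncard : ℝ) ≤ K * (N : ℝ) ^ (θ + ε)) :
    NearForms θ I := by
  classical
  have main : ∀ (k : ℕ) (ι : Type) (v : ι → Fin k → ℝ) (τ η : ℝ), Fam v τ → 0 ≤ τ → η < 1 →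
      ∃ E : Set (Fin k → ℝ), dimH E ≤ ENNReal.ofReal ((k : ℝ) - 1 + (θ + τ) / (1 - η)) ∧
        ∀ α, α ∉ E → ∀ A B C : ℕ, 0 < A → 0 < B → 0 < C → ∀ M c : ℝ,
          {i | ∃ X Y Z : ℕ, (X, Y, Z) ∈ Sol A B C M I ∧
            |(Z : ℝ) - ∑ j, α j * v i j| ≤ c * ‖v i‖ ^ η}.Finite := by
    intro k ι v τ η hv hτ hη
    have h1 : ∀ p : ℕ × ℕ × ℕ × ℕ, ∃ E : Set (Fin k → ℝ),
        dimH E ≤ ENNReal.ofReal ((k : ℝ) - 1 + (θ + τ) / (1 - η)) ∧
        ∀ α, α ∉ E → 0 < p.1 → 0 < p.2.1 → 0 < p.2.2.1 → ∀ c : ℝ,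
          {i | ∃ X Y Z : ℕ, (X, Y, Z) ∈ Sol p.1 p.2.1 p.2.2.1 (p.2.2.2 : ℝ) I ∧
            |(Z : ℝ) - ∑ j, α j * v i j| ≤ c * ‖v i‖ ^ η}.Finite := by
      rintro ⟨A, B, C, M⟩
      by_cases hpos : 0 < A ∧ 0 < B ∧ 0 < C
      · obtain ⟨hA, hB, hC⟩ := hpos
        obtain ⟨E, hE1, hE2⟩ := Pool.Agent.N251.LF.linear_win_nat
          {Z : ℕ | ∃ X Y, (X, Y, Z) ∈ Sol A B C (M : ℝ) I} v h0 hτ hη hv (fun ε hε => by
            obtain ⟨K, hK⟩ := Pool.Agent.Helper42.ZV.count_of (h A B C M hA hB hC) ε hε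
            refine ⟨K, fun X hX => le_trans (le_of_eq ?_) (hK X hX)⟩
            congr!)
        refine ⟨E, hE1, fun α hα _ _ _ c => (hE2 α hα c).subset ?_⟩
        rintro i ⟨X, Y, Z, h2, h3⟩
        exact ⟨Z, Or.inr ⟨X, Y, h2⟩, h3⟩
      · exact ⟨∅, by simp, fun α _ hA hB hC => absurd ⟨hA, hB, hC⟩ hpos⟩
    choose E hE1 hE2 using h1
    refine ⟨⋃ p, E p, ?_, fun α hα A B C hA hB hC M c => ?_⟩
    · rw [dimH_iUnion]
      exact iSup_le hE1
    · rw [Set.mem_iUnion] at hα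
      push Not at hα
      refine (hE2 (A, B, C, ⌈M⌉₊) α (hα _) hA hB hC c).subset ?_
      rintro i ⟨X, Y, Z, h2, h3⟩
      exact ⟨X, Y, Z, sol_mono (Nat.le_ceil M) h2, h3⟩
  refine ⟨main, ?_⟩
  intro d hd
  have hd0 : (0 : ℝ) < d := by
    have : 0 < d := by omega
    exact_mod_cast this
  -- the exponents
  have h2 : ∀ m : ℕ, ∀ᵐ α : Fin (d + 1) → ℝ, ∀ A B C : ℕ, 0 < A → 0 < B → 0 < C → ∀ M c : ℝ,
      {n : ℕ | ∃ X Y Z : ℕ, (X, Y, Z) ∈ Sol A B C M I ∧ |(Z : ℝ) - ∑ j, α j * (n : ℝ) ^ (j : ℕ)| ≤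
        c * ‖(fun j : Fin (d + 1) => (n : ℝ) ^ (j : ℕ))‖ ^
          (((1 - θ) * d - 1 - 1 / ((m : ℝ) + 1)) / d)}.Finite := by
    intro m
    obtain ⟨η, hη⟩ : ∃ η, η = ((1 - θ) * d - 1 - 1 / ((m : ℝ) + 1)) / d := ⟨_, rfl⟩
    have hm : (0 : ℝ) < 1 / ((m : ℝ) + 1) := by positivity
    have hηd : η * d = (1 - θ) * d - 1 - 1 / ((m : ℝ) + 1) := by
      rw [hη]
      field_simp
    have hθd : 0 ≤ θ * d := by positivity
    have hη1 : η < 1 := by
      by_contra hcon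
      push Not at hcon
      have : 1 * (d : ℝ) ≤ η * d := mul_le_mul_of_nonneg_right hcon hd0.le
      nlinarith
    have hfam : Fam (fun (n : ℕ) (j : Fin (d + 1)) => (n : ℝ) ^ (j : ℕ)) (1 / d) :=
      Pool.Agent.N251.LF.fam_poly (by omega)
    obtain ⟨E, hE1, hE2⟩ := main (d + 1) ℕ _ (1 / d) η hfam (by positivity) hη1
    have hE3 : dimH E < ((d + 1 : ℕ) : ENNReal) := by
      refine lt_of_le_of_lt hE1 ?_
      rw [← ENNReal.ofReal_natCast]
      rw [ENNReal.ofReal_lt_ofReal_iff (by positivity)]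
      have h3 : (θ + 1 / d) / (1 - η) < 1 := by
        rw [div_lt_one (by linarith)]
        have h4 : (θ + 1 / d) * d < (1 - η) * d := by
          have e1 : (θ + 1 / d) * d = θ * d + 1 := by field_simp
          rw [e1, sub_mul, hηd]
          linarith
        exact lt_of_mul_lt_mul_right h4 hd0.le
      linarith
    have hE4 : volume E = 0 := by
      have h5 := hausdorffMeasure_of_dimH_lt (d := ((d + 1 : ℕ) : NNReal)) (by exact_mod_cast hE3)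
      have h6 := MeasureTheory.hausdorffMeasure_pi_real (ι := Fin (d + 1))
      rw [Fintype.card_fin] at h6
      rw [← h6]
      exact_mod_cast h5
    have hE5 : ∀ᵐ α : Fin (d + 1) → ℝ, α ∉ E := by
      rw [ae_iff]
      simpa using hE4
    filter_upwards [hE5] with α hα A B C hA hB hC M c
    rw [← hη]
    exact hE2 α hα A B C hA hB hC M c
  filter_upwards [ae_all_iff.2 h2] with α hα A B C hA hB hC M c κ hκ
  obtain ⟨m, hm⟩ := exists_nat_one_div_lt (sub_pos.2 hκ)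
  have hfin := hα m A B C hA hB hC M |c|
  refine ((Set.finite_singleton 0).union hfin).subset ?_
  rintro n ⟨X, Y, Z, h3, h4⟩
  rcases Nat.eq_zero_or_pos n with h5 | h5
  · exact Or.inl h5
  · right
    refine ⟨X, Y, Z, h3, h4.trans ?_⟩
    have hn1 : (1 : ℝ) ≤ n := by exact_mod_cast h5
    rw [norm_powers h5, ← Real.rpow_natCast, ← Real.rpow_mul (by linarith)]
    have h6 : (d : ℝ) * (((1 - θ) * d - 1 - 1 / ((m : ℝ) + 1)) / d) =
        (1 - θ) * d - 1 - 1 / ((m : ℝ) + 1) := by field_simp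
    rw [h6]
    have h7 : (n : ℝ) ^ κ ≤ (n : ℝ) ^ ((1 - θ) * d - 1 - 1 / ((m : ℝ) + 1)) :=
      Real.rpow_le_rpow_of_exponent_le hn1 (by linarith)
    calc c * (n : ℝ) ^ κ ≤ |c| * (n : ℝ) ^ κ :=
          mul_le_mul_of_nonneg_right (le_abs_self c) (by positivity)
      _ ≤ _ := mul_le_mul_of_nonneg_left h7 (abs_nonneg c)

/-- **The sum terms of the solutions keep away from generic polynomials and linear forms.** With
exponent `11 / 30` for all `F < 1` together (`∑ (s + 1) / n < 1`) and with the exponent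
`min (11 / 30) (max (2 F / 5) ((3 F + F ^ 2) / 9))` for `∑ (s + 1) / n ≤ F`; with examples of families
`v`. -/
theorem result :
    NearForms (11 / 30) (Set.Iio 1) ∧
    (∀ F : ℝ, 0 ≤ F → F < 1 →
      NearForms (min (11 / 30) (max (2 * F / 5) ((3 * F + F ^ 2) / 9))) (Set.Iic F)) ∧
    (∀ (k : ℕ) (b : Fin k → ℝ), (∀ j, 1 < b j) →
      Fam (fun (n : Fin k → ℕ) (j : Fin k) => b j ^ n j) 0) ∧
    (∀ (k : ℕ) (a : Fin k → ℝ), (∀ j, 0 < a j) →
      Fam (fun (n : Fin k → ℕ) (j : Fin k) => (n j : ℝ) ^ a j) (∑ j, 1 / a j)) := by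
  refine ⟨?_, ?_, Pool.Agent.N251.LF.examples.2.1, Pool.Agent.N251.LF.examples.2.2.1⟩
  · refine of_count _ _ (by norm_num) ?_
    intro A B C M hA hB hC ε hε
    exact (DeterminantCount.result A B C M ε hA hB hC hε).1
  · intro F hF0 hF1
    refine of_count _ _ ?_ ?_
    · exact le_min (by norm_num) (le_max_of_le_left (by positivity))
    · intro A B C M hA hB hC ε hε
      exact (DeterminantCount.result A B C M ε hA hB hC hε).2 F hF1

end Pool.Agent.Results.MP_4ffbf9_nt.SolutionsNearGenericForms
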