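import Pool.Agent.Results.MP_4ffbf9_nt.DeterminantCount
import Pool.Graph.R_pool_sql_team_seeded_2aa45f1a.H106AP.Fam
import Pool.Graph.R_pool_sql_team_seeded_2aa45f1a.Q21.DW.Cnt

/-!
# `A X + B Y = C Z` in products of small spread: no solution has its sum term at a random real number

All solutions in ALL degrees (also degrees 1, 2, 3, ...), with positive spreads, without any condition on
`gcd (X, Y)`.  For almost every real number `α`, and even for all `α` outside a set of Hausdorff dimension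
less than 1 (for instance `41 / 60` for the convergents), and for all `A`, `B`, `C`, `M` and all `F < 1`
at once: only finitely many solutions have `Z` at a convergent of the continued fraction of `α`, at the
numbers written by blocks of digits of `α`, or in given windows around the dilates `α v k`.
The exponents come from the determinant method count `DeterminantCount`, and the transference to random
real numbers from the library.
-/

set_option autoImplicit false

open Finset MeasureTheory Filter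

namespace Pool.Agent.Results.MP_4ffbf9_nt.SolutionsNearRandomReals

open DeterminantCount (Sol)

/-- the number written by the `k` digits number `j + 1, …, j + k` after the point of `α` in base `g` -/
noncomputable def window (g j k : ℕ) (α : ℝ) : ℕ := (⌊(g : ℝ) ^ (j + k) * α⌋ % (g : ℤ) ^ k).toNat

/-- The properties `G i` of natural numbers hold at random real numbers `α`, with exponent `θ`:
(`digits`) for almost every real `α`, all `i`, all bases `g`, all `κ < 1 - θ` and all large `k`, for ALL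
numbers `window g j k α`, `j ≤ g ^ (κ k)`;
(`dim`) for all `α` outside a set of Hausdorff dimension at most `(θ + η) / (1 + η)`, if `j ≤ η k`;
(`dilates`) for all `α > 0` outside a set of `s`-dimensional Hausdorff measure zero, for all `i` and all
large `k`, at ALL natural numbers `m` with `|m - α v k| ≤ w k`, if `v k ≥ 1`, `w k ≥ 0` and
`∑ v k ^ t (w k / v k) ^ s` converges for some `t > θ`;
(`convergents`) for all irrational `α` outside a set of Hausdorff dimension at most `(1 + θ) / 2`, for all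
`i` and all integers `(u, v) ≠ (0, 0)`, at `|u p + v q|` for all but finitely many convergents `p / q` of
the continued fraction of `α`;
(`points`) for all `α` in `ℝ ^ d` outside a set of Hausdorff dimension at most `(d + D θ) / τ`, all `i` and
all nonconstant integer polynomials `P` of degree at most `D` in `d + 1` variables, at `|P x|`, if it is not
zero, for all but finitely many integer vectors `x` with `x 0 ≥ 1` and
`|α j - x j / x 0| ≤ x 0 ^ (-τ)` for all `j`. -/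
structure AtRandomReals {ι : Type} (θ : ℝ) (G : ι → ℕ → Prop) : Prop where
  digits : ∀ᵐ α : ℝ, ∀ i, ∀ g : ℕ, 2 ≤ g → ∀ κ : ℝ, κ < 1 - θ → ∀ᶠ k : ℕ in atTop, ∀ j : ℕ,
    (j : ℝ) ≤ (g : ℝ) ^ (κ * k) → G i (window g j k α)
  dim : ∀ η : ℝ, 0 ≤ η → dimH {α : ℝ | ¬ ∀ i, ∀ g : ℕ, 2 ≤ g → ∀ᶠ k : ℕ in atTop, ∀ j : ℕ,
    (j : ℝ) ≤ η * k → G i (window g j k α)} ≤ ENNReal.ofReal ((θ + η) / (1 + η))
  dilates : ∀ (t s : ℝ) (v w : ℕ → ℝ), θ < t → 0 < s → (∀ k, 1 ≤ v k) → (∀ k, 0 ≤ w k) →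
    Summable (fun k => v k ^ t * (w k / v k) ^ s) →
    μH[s] {α : ℝ | 0 < α ∧ ¬ ∀ i, ∀ᶠ k : ℕ in atTop, ∀ m : ℕ, |(m : ℝ) - α * v k| ≤ w k →
      G i m} = 0
  convergents : dimH {α : ℝ | Irrational α ∧ ¬ ∀ i, ∀ u v : ℤ, (u ≠ 0 ∨ v ≠ 0) → ∀ᶠ n in atTop,
    G i (u * (α.convergent n).num + v * (α.convergent n).den).natAbs} ≤ ENNReal.ofReal ((1 + θ) / 2)
  points : ∀ (d D : ℕ) (τ : ℝ), 0 < τ →
    dimH {α : Fin d → ℝ | ¬ ∀ i, ∀ P : MvPolynomial (Fin (d + 1)) ℤ, (∀ c, P ≠ MvPolynomial.C c) →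
      P.totalDegree ≤ D → {x : Fin (d + 1) → ℤ | (1 ≤ x 0 ∧ ∀ j : Fin d, |α j - x j.succ / x 0| ≤ (x 0 : ℝ) ^ (-τ)) ∧
        MvPolynomial.eval x P ≠ 0 ∧ ¬ G i (MvPolynomial.eval x P).natAbs}.Finite} ≤ ENNReal.ofReal ((d + D * θ) / τ)

/-- `Z` is not the sum term of a solution with `∑ (s + 1) / n` in `I`, for `i = (A, B, C, M)` with
positive `A`, `B`, `C`. -/
def NoSolution (I : Set ℝ) (i : ℕ × ℕ × ℕ × ℕ) (Z : ℕ) : Prop :=
  0 < i.1 → 0 < i.2.1 → 0 < i.2.2.1 → ∀ X Y : ℕ, (X, Y, Z) ∉ Sol i.1 i.2.1 i.2.2.1 (i.2.2.2 : ℝ) I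

/-- the negation of `NoSolution` -/
def HasSolution (I : Set ℝ) (i : ℕ × ℕ × ℕ × ℕ) (Z : ℕ) : Prop :=
  0 < i.1 ∧ 0 < i.2.1 ∧ 0 < i.2.2.1 ∧ ∃ X Y : ℕ, (X, Y, Z) ∈ Sol i.1 i.2.1 i.2.2.1 (i.2.2.2 : ℝ) I

theorem not_noSolution (I : Set ℝ) (i : ℕ × ℕ × ℕ × ℕ) :
    (fun Z => ¬ NoSolution I i Z) = HasSolution I i := by
  funext Z
  rw [NoSolution, HasSolution]
  push Not
  rfl

theorem ps_of (I : Set ℝ) (θ : ℝ)
    (h : ∀ A B C M : ℕ, 0 < A → 0 < B → 0 < C → ∀ ε : ℝ, 0 < ε → ∃ K : ℝ, ∀ N : ℕ, 1 ≤ N →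
      (Sol A B C (M : ℝ) I ∩ {t : ℕ × ℕ × ℕ | t.2.2 ≤ N}).Finite ∧
      ((Sol A B C (M : ℝ) I ∩ {t : ℕ × ℕ × ℕ | t.2.2 ≤ N}).ncard : ℝ) ≤ K * (N : ℝ) ^ (θ + ε))
    (i : ℕ × ℕ × ℕ × ℕ) : Pool.Agent.Q21.DW.PS θ (fun Z => ¬ NoSolution I i Z) := by
  classical
  rw [not_noSolution]
  obtain ⟨A, B, C, M⟩ := i
  intro t ht
  by_cases hpos : 0 < A ∧ 0 < B ∧ 0 < C
  · obtain ⟨hA, hB, hC⟩ := hpos
    obtain ⟨K, hK⟩ := h A B C M hA hB hC (t - θ) (by linarith)
    refine ⟨K, fun N hN => ?_⟩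
    obtain ⟨hfin, hcard⟩ := hK N hN
    have e1 : θ + (t - θ) = t := by ring
    rw [e1] at hcard
    refine le_trans ?_ hcard
    rw [Set.ncard_eq_toFinset_card _ hfin]
    have hsub : ∀ s : Finset ℕ, (∀ Z ∈ s, Z ≤ N ∧ HasSolution I (A, B, C, M) Z) →
        s ⊆ hfin.toFinset.image (fun w => w.2.2) := by
      intro s hs Z hZ
      obtain ⟨h1, -, -, -, X, Y, hXY⟩ := hs Z hZ
      rw [mem_image]
      refine ⟨(X, Y, Z), ?_, rfl⟩
      rw [Set.Finite.mem_toFinset]
      exact ⟨hXY, h1⟩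
    refine Nat.cast_le.2 ((card_le_card (hsub _ ?_)).trans card_image_le)
    intro Z hZ
    have hZ' := mem_filter.1 hZ
    exact ⟨(mem_Icc.1 hZ'.1).2, hZ'.2⟩
  · refine ⟨0, fun N _ => ?_⟩
    rw [zero_mul]
    refine le_of_eq ?_
    rw [Nat.cast_eq_zero, Finset.card_eq_zero]
    exact Finset.filter_eq_empty_iff.2 fun Z _ h => hpos ⟨h.1, h.2.1, h.2.2.1⟩

theorem atRandomReals_of (I : Set ℝ) (θ : ℝ) (h0 : 0 ≤ θ) (h1 : θ < 1)
    (h : ∀ A B C M : ℕ, 0 < A → 0 < B → 0 < C → ∀ ε : ℝ, 0 < ε → ∃ K : ℝ, ∀ N : ℕ, 1 ≤ N →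
      (Sol A B C (M : ℝ) I ∩ {t : ℕ × ℕ × ℕ | t.2.2 ≤ N}).Finite ∧
      ((Sol A B C (M : ℝ) I ∩ {t : ℕ × ℕ × ℕ | t.2.2 ≤ N}).ncard : ℝ) ≤ K * (N : ℝ) ^ (θ + ε)) :
    AtRandomReals θ (NoSolution I) := by
  have hr := Pool.Agent.Q21.DW.randomReals_of (B := fun (i : ℕ × ℕ × ℕ × ℕ) Z => ¬ NoSolution I i Z)
    (G := NoSolution I) h0 h1 (ps_of I θ h) (fun i n _ hn => by
      by_contra hcon
      exact hn hcon)
  have ha := Pool.Agent.H106AP.approximations_of h0 (G := NoSolution I) (ps_of I θ h)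
  exact ⟨hr.digits, hr.dim, hr.dilates, ha.convergents, ha.points⟩

/-- **No solution has its sum term at a random real number.**  At random real numbers in the sense of
`AtRandomReals`, with exponent `11 / 30` for all `F < 1` together (`∑ (s + 1) / n < 1`), and with exponent
`min (11 / 30) (max (2 F / 5) ((3 F + F ^ 2) / 9))` for every `F` in `[0, 1)` (`∑ (s + 1) / n ≤ F`). -/
theorem result : AtRandomReals (11 / 30) (NoSolution (Set.Iio 1)) ∧
    ∀ F : ℝ, 0 ≤ F → F < 1 →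
      AtRandomReals (min (11 / 30) (max (2 * F / 5) ((3 * F + F ^ 2) / 9))) (NoSolution (Set.Iic F)) := by
  constructor
  · refine atRandomReals_of _ _ (by norm_num) (by norm_num) ?_
    intro A B C M hA hB hC ε hε
    exact (DeterminantCount.result A B C M ε hA hB hC hε).1
  · intro F hF0 hF1
    refine atRandomReals_of _ _ ?_ ?_ ?_
    · refine le_min (by norm_num) (le_max_of_le_left (by positivity))
    · exact lt_of_le_of_lt (min_le_left _ _) (by norm_num)
    · intro A B C M hA hB hC ε hε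
      exact (DeterminantCount.result A B C M ε hA hB hC hε).2 F hF1

end Pool.Agent.Results.MP_4ffbf9_nt.SolutionsNearRandomReals
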